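import Pool.Agent.Q94.CI.T1
import Pool.Agent.Q94.CI.T2
import Pool.Agent.Q94.CI.T3
import Pool.Agent.Q94.CI.T4
import Pool.Agent.Q94.CI.T5
import Pool.Agent.Q94.CI.T6
import Pool.Agent.Q94.CI.T7

/-!
# MP_4d7ea7_an: the capacitary inradius and the Maz'ya-Shubin inradius are comparable

Definitions (`Pool/Agent/Q94/CI/Stm.lean`): `E N` is Euclidean `N`-space, `IsTest φ U` says
`φ ∈ C_0^∞(U)`, `energy p φ = ∫ |∇φ|^p`, `cap p K U` is the infimum of the energies of the test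
functions of `U` that are at least `1` on `K` (the relative capacity `cap_p(K; U)`, and the
absolute one for `U = univ`). `Rrel p γ Ω` and `RMS p γ Ω` are the capacitary inradius and the
Maz'ya-Shubin capacitary inradius (suprema in `[0, ∞]`).
-/

set_option autoImplicit false

open MeasureTheory Metric Set
open scoped ENNReal

namespace Pool.Agent.Results.MP_4d7ea7_an.InradiiComparable

open Pool.Agent.Q94.CI

/-- For all `N ≥ 2`, `1 < p < N` and `0 < γ < 1` there are positive constants `c₁, c₂` with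
`c₁ R^{MS}_{p,γ}(Ω) ≤ R_{p,γ}(Ω) ≤ c₂ R^{MS}_{p,γ}(Ω)` for every open `Ω ⊆ ℝ^N`. -/
theorem result (N : ℕ) (p γ : ℝ) (hN : 2 ≤ N) (hp : 1 < p) (hpN : p < N) (hγ : 0 < γ)
    (hγ1 : γ < 1) :
    ∃ c₁ c₂ : ℝ, 0 < c₁ ∧ 0 < c₂ ∧ ∀ Ω : Set (E N), IsOpen Ω →
      ENNReal.ofReal c₁ * RMS p γ Ω ≤ Rrel p γ Ω ∧
      Rrel p γ Ω ≤ ENNReal.ofReal c₂ * RMS p γ Ω :=
  main_of t1 (t7 t1 (t3 t2) t4 T5.t5 T6.t6) N p γ hN hp hpN hγ hγ1

end Pool.Agent.Results.MP_4d7ea7_an.InradiiComparable
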